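import Mathlib
import Pool.Agent.V11256.DE.G

/-!
# The stable set of the equilibrium of `x_{n+1} = (α + x_{n-1}) / (A + B x_n + x_{n-1})`

In the case `α < A` of hypothesis (H), the set `W` of nonnegative initial pairs whose solution
converges to the equilibrium is a closed set, the graph of a strictly increasing function on an
unbounded interval, passing through `(x̄, x̄)`. The pairs south-east of a point of `W` are
attracted by the two-cycle with `x_{2n} → m`, `x_{2n+1} → M`, those north-west of it by the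
two-cycle with `x_{2n} → M`, `x_{2n+1} → m`.
-/

namespace Pool.Agent.Results.MP_a0c75d_an.StableCurve

open Filter Topology Pool.Agent.V11256.DE2

/-- The solution with `x_{-1} = p.1`, `x_0 = p.2`; `sol α A B p n = x_{n-1}`. -/
noncomputable def sol (α A B : ℝ) (p : ℝ × ℝ) : ℕ → ℝ
  | 0 => p.1
  | 1 => p.2
  | n + 2 => (α + sol α A B p n) / (A + B * sol α A B p (n + 1) + sol α A B p n)

/-- The equilibrium. -/
noncomputable def xbar (α A B : ℝ) : ℝ :=
  (1 - A + Real.sqrt ((1 - A) ^ 2 + 4 * α * (1 + B))) / (2 * (1 + B))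

/-- The smaller point of the two-cycle. -/
noncomputable def cm (α A B : ℝ) : ℝ := (1 - A - Real.sqrt ((1 - A) ^ 2 - 4 * α / (B - 1))) / 2

/-- The larger point of the two-cycle. -/
noncomputable def cM (α A B : ℝ) : ℝ := (1 - A + Real.sqrt ((1 - A) ^ 2 - 4 * α / (B - 1))) / 2

/-- The nonnegative initial pairs. -/
def Quad : Set (ℝ × ℝ) := {p | 0 ≤ p.1 ∧ 0 ≤ p.2}

/-- The nonnegative initial pairs whose solution converges to the equilibrium. -/
def W (α A B : ℝ) : Set (ℝ × ℝ) :=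
  {p | p ∈ Quad ∧ Tendsto (fun n => sol α A B p (n + 1)) atTop (𝓝 (xbar α A B))}

/-- `x_{2n} → m` and `x_{2n+1} → M`. -/
def ToLow (α A B : ℝ) (p : ℝ × ℝ) : Prop :=
  Tendsto (fun n => sol α A B p (2 * n + 1)) atTop (𝓝 (cm α A B)) ∧
    Tendsto (fun n => sol α A B p (2 * n + 2)) atTop (𝓝 (cM α A B))

/-- `x_{2n} → M` and `x_{2n+1} → m`. -/
def ToHigh (α A B : ℝ) (p : ℝ × ℝ) : Prop :=
  Tendsto (fun n => sol α A B p (2 * n + 1)) atTop (𝓝 (cM α A B)) ∧
    Tendsto (fun n => sol α A B p (2 * n + 2)) atTop (𝓝 (cm α A B))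

variable {α A B : ℝ}

lemma isSol (p : ℝ × ℝ) : IsSol α A B (sol α A B p) := by
  intro n
  rw [sol]
  rfl

lemma data (hα : 0 < α) (hA : α < A) (hA1 : A < 1) (hB : 1 < B)
    (H : α < (B - 1) * (1 - A) ^ 2 / 4) :
    Data α A B (xbar α A B) (cm α A B) (cM α A B) := by
  have hB1 : 0 < B - 1 := by linarith
  have hB2 : 0 < 1 + B := by linarith
  have hΔ : 0 < (1 - A) ^ 2 - 4 * α / (B - 1) := by
    rw [sub_pos, div_lt_iff₀ hB1]
    nlinarith
  set s := Real.sqrt ((1 - A) ^ 2 - 4 * α / (B - 1)) with hs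
  have hspos : 0 < s := Real.sqrt_pos.2 hΔ
  have hss : s ^ 2 = (1 - A) ^ 2 - 4 * α / (B - 1) := Real.sq_sqrt hΔ.le
  have hE : 0 < (1 - A) ^ 2 + 4 * α * (1 + B) := by positivity
  set r := Real.sqrt ((1 - A) ^ 2 + 4 * α * (1 + B)) with hr
  have hrpos : 0 < r := Real.sqrt_pos.2 hE
  have hrr : r ^ 2 = (1 - A) ^ 2 + 4 * α * (1 + B) := Real.sq_sqrt hE.le
  have hx : 0 < xbar α A B := by
    unfold xbar
    exact div_pos (by linarith) (by linarith)
  have hxr : 2 * (1 + B) * xbar α A B = 1 - A + r := by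
    have h0 : xbar α A B = (1 - A + r) / (2 * (1 + B)) := rfl
    rw [h0]
    field_simp
  have hxeq : (1 + B) * xbar α A B ^ 2 = (1 - A) * xbar α A B + α := by
    have h1 : (2 * (1 + B) * xbar α A B - (1 - A)) ^ 2 = (1 - A) ^ 2 + 4 * α * (1 + B) := by
      rw [hxr, ← hrr]; ring
    have h2 : 4 * (1 + B) * ((1 + B) * xbar α A B ^ 2 - (1 - A) * xbar α A B - α) = 0 := by
      linear_combination h1
    rcases mul_eq_zero.1 h2 with h | h
    · linarith
    · linarith
  have hx2 : 2 * xbar α A B < 1 - A := by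
    by_contra hc
    push Not at hc
    have h1 : 0 ≤ (2 * xbar α A B - (1 - A)) * ((1 + B) * xbar α A B) :=
      mul_nonneg (by linarith) (by positivity)
    have h2 : 0 ≤ (2 * xbar α A B - (1 - A)) * (1 - A) := mul_nonneg (by linarith) (by linarith)
    nlinarith
  have hcm : cm α A B = (1 - A - s) / 2 := rfl
  have hcM : cM α A B = (1 - A + s) / 2 := rfl
  have hsum : cm α A B + cM α A B = 1 - A := by rw [hcm, hcM]; ring
  have hprod : cm α A B * cM α A B * (B - 1) = α := by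
    rw [hcm, hcM]
    have : (1 - A - s) / 2 * ((1 - A + s) / 2) = ((1 - A) ^ 2 - s ^ 2) / 4 := by ring
    rw [this, hss]
    field_simp
    ring
  -- the equilibrium lies strictly between
  have hneg : (xbar α A B - cm α A B) * (xbar α A B - cM α A B) < 0 := by
    have h1 : ((xbar α A B - cm α A B) * (xbar α A B - cM α A B)) * (B - 1) =
        B * xbar α A B * (2 * xbar α A B - (1 - A)) := by
      linear_combination (B - 1) * (-xbar α A B) * hsum + hprod - hxeq
    have h2 : B * xbar α A B * (2 * xbar α A B - (1 - A)) < 0 :=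
      mul_neg_of_pos_of_neg (mul_pos (by linarith) hx) (by linarith)
    rw [← h1] at h2
    by_contra hc
    push Not at hc
    nlinarith [mul_nonneg hc hB1.le]
  have hlt : cm α A B < cM α A B := by rw [hcm, hcM]; linarith
  refine ⟨hα, hA, hB, hx, hxeq, hx2, hsum, hprod, ?_, ?_⟩
  · by_contra hc
    push Not at hc
    nlinarith [mul_nonneg (sub_nonneg.2 hc) (sub_nonneg.2 (hc.trans hlt.le))]
  · by_contra hc
    push Not at hc
    nlinarith [mul_nonneg (sub_nonneg.2 hc) (sub_nonneg.2 (hlt.le.trans hc))]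

lemma nonneg (hα : 0 < α) (hA : α < A) (hB : 1 < B) {p : ℝ × ℝ} (hp : p ∈ Quad) :
    ∀ n, 0 ≤ sol α A B p n :=
  sol_nonneg hα hA hB (isSol p) (by rw [sol]; exact hp.1) (by rw [sol]; exact hp.2)

lemma cont (hα : 0 < α) (hA : α < A) (hB : 1 < B) (n : ℕ) :
    ContinuousOn (fun p : ℝ × ℝ => sol α A B p n) Quad := by
  induction n using Nat.strong_induction_on with
  | _ n ih =>
    match n with
    | 0 => simp only [sol]; exact continuousOn_fst
    | 1 => simp only [sol]; exact continuousOn_snd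
    | n + 2 =>
      simp only [sol]
      have h1 := ih n (by omega)
      have h2 := ih (n + 1) (by omega)
      refine ContinuousOn.div (continuousOn_const.add h1)
        ((continuousOn_const.add (continuousOn_const.mul h2)).add h1) ?_
      intro p hp
      have a := nonneg hα hA hB hp n
      have b := mul_nonneg (show (0 : ℝ) ≤ B by linarith) (nonneg hα hA hB hp (n + 1))
      have : 0 < A + B * sol α A B p (n + 1) + sol α A B p n := by linarith
      exact this.ne'

lemma toLow_iff (p : ℝ × ℝ) : ToLow α A B p ↔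
    Tendsto (fun n => sol α A B p (2 * n)) atTop (𝓝 (cM α A B)) ∧
      Tendsto (fun n => sol α A B p (2 * n + 1)) atTop (𝓝 (cm α A B)) := by
  unfold ToLow
  rw [← tendsto_add_atTop_iff_nat (f := fun n => sol α A B p (2 * n)) 1, and_comm]
  rfl

lemma toHigh_iff (p : ℝ × ℝ) : ToHigh α A B p ↔
    Tendsto (fun n => sol α A B p (2 * n)) atTop (𝓝 (cm α A B)) ∧
      Tendsto (fun n => sol α A B p (2 * n + 1)) atTop (𝓝 (cM α A B)) := by
  unfold ToHigh
  rw [← tendsto_add_atTop_iff_nat (f := fun n => sol α A B p (2 * n)) 1, and_comm]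
  rfl

lemma mem_W_iff (p : ℝ × ℝ) : p ∈ W α A B ↔
    p ∈ Quad ∧ Tendsto (sol α A B p) atTop (𝓝 (xbar α A B)) := by
  unfold W
  rw [Set.mem_ofPred_eq, tendsto_add_atTop_iff_nat (f := sol α A B p) 1]

section

variable (D : Data α A B (xbar α A B) (cm α A B) (cM α A B))

include D

lemma trich {p : ℝ × ℝ} (hp : p ∈ Quad) : p ∈ W α A B ∨ ToLow α A B p ∨ ToHigh α A B p := by
  rw [mem_W_iff, toLow_iff, toHigh_iff]
  rcases tri D (isSol p) (nonneg D.hα D.hA D.hB hp) with h | h | h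
  · exact Or.inl ⟨hp, h⟩
  · exact Or.inr (Or.inr h)
  · exact Or.inr (Or.inl h)

lemma not_W_low {p : ℝ × ℝ} (h1 : p ∈ W α A B) (h2 : ToLow α A B p) : False := by
  rw [mem_W_iff] at h1
  rw [toLow_iff] at h2
  have := tendsto_nhds_unique (sub_even h1.2) h2.1
  exact absurd D.hxM (not_lt.2 this.ge)

lemma not_W_high {p : ℝ × ℝ} (h1 : p ∈ W α A B) (h2 : ToHigh α A B p) : False := by
  rw [mem_W_iff] at h1
  rw [toHigh_iff] at h2
  have := tendsto_nhds_unique (sub_even h1.2) h2.1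
  exact absurd D.hmx (not_lt.2 this.le)

lemma not_low_high {p : ℝ × ℝ} (h1 : ToLow α A B p) (h2 : ToHigh α A B p) : False := by
  rw [toLow_iff] at h1
  rw [toHigh_iff] at h2
  have := tendsto_nhds_unique h1.1 h2.1
  have h3 := D.hmx
  have h4 := D.hxM
  linarith

lemma low_open {p : ℝ × ℝ} (hp : p ∈ Quad) (h : ToLow α A B p) :
    ∀ᶠ q in 𝓝[Quad] p, ToLow α A B q := by
  rw [toLow_iff] at h
  obtain ⟨N, h1, h2⟩ := ((h.1.eventually (lt_mem_nhds D.hxM)).and
    (h.2.eventually (gt_mem_nhds D.hmx))).exists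
  have c1 := ((cont D.hα D.hA D.hB (2 * N)) p hp).eventually (lt_mem_nhds h1)
  have c2 := ((cont D.hα D.hA D.hB (2 * N + 1)) p hp).eventually (gt_mem_nhds h2)
  filter_upwards [c1, c2, self_mem_nhdsWithin] with q h3 h4 hq
  rw [toLow_iff]
  exact low_of D (isSol q) (nonneg D.hα D.hA D.hB hq) N h3.le h4.le (Or.inl h3)

lemma high_open {p : ℝ × ℝ} (hp : p ∈ Quad) (h : ToHigh α A B p) :
    ∀ᶠ q in 𝓝[Quad] p, ToHigh α A B q := by
  rw [toHigh_iff] at h
  obtain ⟨N, h1, h2⟩ := ((h.1.eventually (gt_mem_nhds D.hmx)).and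
    (h.2.eventually (lt_mem_nhds D.hxM))).exists
  have c1 := ((cont D.hα D.hA D.hB (2 * N)) p hp).eventually (gt_mem_nhds h1)
  have c2 := ((cont D.hα D.hA D.hB (2 * N + 1)) p hp).eventually (lt_mem_nhds h2)
  filter_upwards [c1, c2, self_mem_nhdsWithin] with q h3 h4 hq
  rw [toHigh_iff]
  exact high_of D (isSol q) (nonneg D.hα D.hA D.hB hq) N h3.le h4.le (Or.inl h3)

lemma closed_W : IsClosed (W α A B) := by
  have hQ : IsClosed (Quad : Set (ℝ × ℝ)) :=
    (isClosed_le continuous_const continuous_fst).inter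
      (isClosed_le continuous_const continuous_snd)
  refine isClosed_of_closure_subset (fun p hp => ?_)
  have hpQ : p ∈ Quad := by
    have : W α A B ⊆ Quad := fun q hq => hq.1
    exact hQ.closure_subset_iff.2 this hp
  rw [mem_closure_iff_frequently] at hp
  rcases trich D hpQ with h | h | h
  · exact h
  · have h1 := eventually_nhdsWithin_iff.1 (low_open D hpQ h)
    obtain ⟨q, hq1, hq2⟩ := (hp.and_eventually h1).exists
    exact (not_W_low D hq1 (hq2 hq1.1)).elim
  · have h1 := eventually_nhdsWithin_iff.1 (high_open D hpQ h)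
    obtain ⟨q, hq1, hq2⟩ := (hp.and_eventually h1).exists
    exact (not_W_high D hq1 (hq2 hq1.1)).elim

lemma se_low {p q : ℝ × ℝ} (hp : p ∈ W α A B) (hq : q ∈ Quad) (hne : q ≠ p) (h1 : p.1 ≤ q.1)
    (h2 : q.2 ≤ p.2) : ToLow α A B q := by
  rw [mem_W_iff] at hp
  rw [toLow_iff]
  refine south_east D (isSol p) (isSol q) (nonneg D.hα D.hA D.hB hp.1)
    (nonneg D.hα D.hA D.hB hq) (by simpa only [sol] using h1) (by simpa only [sol] using h2)
    ?_ hp.2
  simp only [sol]
  by_contra hc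
  push Not at hc
  exact hne (Prod.ext (le_antisymm hc.1 h1) (le_antisymm h2 hc.2))

lemma nw_high {p q : ℝ × ℝ} (hp : p ∈ W α A B) (hq : q ∈ Quad) (hne : q ≠ p) (h1 : q.1 ≤ p.1)
    (h2 : p.2 ≤ q.2) : ToHigh α A B q := by
  rw [mem_W_iff] at hp
  rw [toHigh_iff]
  refine north_west D (isSol p) (isSol q) (nonneg D.hα D.hA D.hB hp.1)
    (nonneg D.hα D.hA D.hB hq) (by simpa only [sol] using h1) (by simpa only [sol] using h2)
    ?_ hp.2
  simp only [sol]
  by_contra hc
  push Not at hc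
  exact hne (Prod.ext (le_antisymm h1 hc.1) (le_antisymm hc.2 h2))

lemma unique_W {p q : ℝ × ℝ} (hp : p ∈ W α A B) (hq : q ∈ W α A B) (h1 : p.1 ≤ q.1)
    (h2 : q.2 ≤ p.2) : p = q := by
  by_contra hne
  exact not_W_low D hq (se_low D hp hq.1 (fun h => hne h.symm) h1 h2)

/-- For large `v` the solution is attracted by the second orientation of the two-cycle. -/
lemma high_large {u v : ℝ} (hu : 0 ≤ u) (hv : xbar α A B < v)
    (hv2 : (α + u) < B * xbar α A B * v) : ToHigh α A B (u, v) := by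
  have hx := D.hx
  have hB0 : 0 < B := by linarith [D.hB]
  have hQ : ((u, v) : ℝ × ℝ) ∈ Quad := ⟨hu, by simp only; linarith⟩
  have hn := nonneg D.hα D.hA D.hB hQ
  have e2 : sol α A B (u, v) 2 = (α + u) / (A + B * v + u) := by simp only [sol]
  have hlt : sol α A B (u, v) 2 < xbar α A B := by
    have h1 : 0 < B * v := mul_pos hB0 (by linarith)
    have h2 : 0 < A + B * v + u := by linarith [D.hα, D.hA]
    rw [e2, div_lt_iff₀ h2]
    have h3 : 0 ≤ xbar α A B * (A + u) := mul_nonneg hx.le (by linarith [D.hα, D.hA])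
    nlinarith
  have hge : xbar α A B ≤ sol α A B (u, v) 3 := by
    have h1 := isSol (α := α) (A := A) (B := B) (u, v) 1
    have h2 := const_sol D 0
    rw [h1]
    calc xbar α A B = f α A B (xbar α A B) (xbar α A B) := h2
      _ ≤ f α A B (sol α A B (u, v) 1) (sol α A B (u, v) (1 + 1)) :=
          f_mono D.hα D.hA D.hB hx.le (by simp only [sol]; exact hv.le) (hn _) hlt.le
  rw [toHigh_iff]
  exact high_of D (isSol _) hn 1 hlt.le hge (Or.inl hlt)

lemma exists_W' {u v₁ : ℝ} (hu0 : 0 ≤ u) (hv₁ : 0 ≤ v₁) (hlow : ToLow α A B (u, v₁)) :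
    ∃ v, ((u, v) : ℝ × ℝ) ∈ W α A B := by
  have hx := D.hx
  have hB0 : 0 < B := by linarith [D.hB]
  have hBx : 0 < B * xbar α A B := mul_pos hB0 hx
  set V := max (xbar α A B) ((α + u) / (B * xbar α A B)) + 1 with hV
  have hbig : ∀ v, V ≤ v → ToHigh α A B (u, v) := by
    intro v hv
    have h1 : xbar α A B < v := by linarith [le_max_left (xbar α A B) ((α + u) / (B * xbar α A B))]
    have h2 : (α + u) / (B * xbar α A B) < v := by
      linarith [le_max_right (xbar α A B) ((α + u) / (B * xbar α A B))]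
    refine high_large D hu0 h1 ?_
    rw [div_lt_iff₀ hBx] at h2
    linarith
  set S : Set ℝ := {v | 0 ≤ v ∧ ToLow α A B (u, v)} with hS
  have hSne : S.Nonempty := ⟨v₁, hv₁, hlow⟩
  have hSb : BddAbove S := ⟨V, fun v hv => by
    by_contra hc
    push Not at hc
    exact not_low_high D hv.2 (hbig v hc.le)⟩
  set w := sSup S with hw
  have hw0 : 0 ≤ w := by
    obtain ⟨v, hv⟩ := hSne
    exact le_trans hv.1 (le_csSup hSb hv)
  have hwQ : ((u, w) : ℝ × ℝ) ∈ Quad := ⟨hu0, hw0⟩
  refine ⟨w, ?_⟩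
  rcases trich D hwQ with h | h | h
  · exact h
  · exfalso
    have h1 := low_open D hwQ h
    rw [Filter.Eventually, Metric.mem_nhdsWithin_iff] at h1
    obtain ⟨e, he, hsub⟩ := h1
    have h2 : ((u, w + e / 2) : ℝ × ℝ) ∈ Metric.ball (u, w) e ∩ Quad := by
      refine ⟨?_, hu0, by simp only; linarith⟩
      rw [Metric.mem_ball, Prod.dist_eq, dist_self, Real.dist_eq]
      simp only
      rw [show w + e / 2 - w = e / 2 by ring, abs_of_pos (by linarith)]
      exact max_lt he (by linarith)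
    have h3 : w + e / 2 ∈ S := ⟨by linarith, hsub h2⟩
    have := le_csSup hSb h3
    linarith
  · exfalso
    have h1 := high_open D hwQ h
    rw [Filter.Eventually, Metric.mem_nhdsWithin_iff] at h1
    obtain ⟨e, he, hsub⟩ := h1
    obtain ⟨v, hv, hvw⟩ := exists_lt_of_lt_csSup hSne (show w - e < w by linarith)
    have hvle := le_csSup hSb hv
    have h2 : ((u, v) : ℝ × ℝ) ∈ Metric.ball (u, w) e ∩ Quad := by
      refine ⟨?_, hu0, hv.1⟩
      rw [Metric.mem_ball, Prod.dist_eq, dist_self, Real.dist_eq]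
      simp only
      refine max_lt he ?_
      rw [abs_lt]
      constructor <;> linarith
    exact not_low_high D hv.2 (hsub h2)

lemma exists_W {p : ℝ × ℝ} (hp : p ∈ W α A B) {u : ℝ} (hu : p.1 ≤ u) :
    ∃ v, ((u, v) : ℝ × ℝ) ∈ W α A B := by
  rcases eq_or_lt_of_le hu with heq | hlt
  · exact ⟨p.2, by rw [← heq]; exact hp⟩
  have hu0 : 0 ≤ u := le_trans hp.1.1 hu
  refine exists_W' D hu0 hp.1.2 (se_low D hp ⟨hu0, hp.1.2⟩ (fun h => by
      have := congrArg Prod.fst h
      simp only at this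
      linarith) hu le_rfl)

/-- The left end of the curve lies on the boundary of the quadrant. -/
lemma left_end (hxW : (xbar α A B, xbar α A B) ∈ W α A B) :
    ∃ p₀ ∈ W α A B, (p₀.1 = 0 ∨ p₀.2 = 0) ∧ ∀ p ∈ W α A B, p₀.1 ≤ p.1 ∧ p₀.2 ≤ p.2 := by
  set x := xbar α A B with hx
  set K : Set (ℝ × ℝ) := W α A B ∩ {p | p.1 ≤ x} with hK
  have hKc : IsCompact K := by
    have hsub : K ⊆ Set.Icc (0 : ℝ) x ×ˢ Set.Icc (0 : ℝ) x := by
      rintro p ⟨hp, hp1⟩
      refine ⟨⟨hp.1.1, hp1⟩, hp.1.2, ?_⟩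
      by_contra hc
      push Not at hc
      have := unique_W D hp hxW hp1 hc.le
      rw [this] at hc
      exact absurd hc (lt_irrefl _)
    exact (isCompact_Icc.prod isCompact_Icc).of_isClosed_subset
      ((closed_W D).inter (isClosed_le continuous_fst continuous_const)) hsub
  obtain ⟨p₀, hp₀, hmin⟩ := hKc.exists_isMinOn ⟨(x, x), hxW, le_refl x⟩
    (continuous_fst.continuousOn (s := K))
  have hmin1 : ∀ p ∈ W α A B, p₀.1 ≤ p.1 := by
    intro p hp
    rcases le_total p.1 x with h | h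
    · exact hmin ⟨hp, h⟩
    · exact le_trans hp₀.2 h
  refine ⟨p₀, hp₀.1, ?_, fun p hp => ⟨hmin1 p hp, ?_⟩⟩
  · by_contra hc
    push Not at hc
    have h1 : 0 < p₀.1 := lt_of_le_of_ne hp₀.1.1.1 (Ne.symm hc.1)
    have h2 : 0 < p₀.2 := lt_of_le_of_ne hp₀.1.1.2 (Ne.symm hc.2)
    have hqQ : ((p₀.1, 0) : ℝ × ℝ) ∈ Quad := ⟨h1.le, le_refl _⟩
    have hlow : ToLow α A B (p₀.1, 0) := se_low D hp₀.1 hqQ (fun h => by
      have := congrArg Prod.snd h
      simp only at this
      linarith) le_rfl h2.le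
    have h3 := low_open D hqQ hlow
    rw [Filter.Eventually, Metric.mem_nhdsWithin_iff] at h3
    obtain ⟨e, he, hsub⟩ := h3
    set d := min (e / 2) p₀.1 with hd
    have hd0 : 0 < d := lt_min (by linarith) h1
    have hde : d ≤ e / 2 := min_le_left _ _
    have hdp : d ≤ p₀.1 := min_le_right _ _
    have h4 : ((p₀.1 - d, 0) : ℝ × ℝ) ∈ Metric.ball (p₀.1, 0) e ∩ Quad := by
      refine ⟨?_, by simp only; linarith, le_refl _⟩
      rw [Metric.mem_ball, Prod.dist_eq, dist_self, Real.dist_eq]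
      simp only
      rw [show p₀.1 - d - p₀.1 = -d by ring, abs_neg, abs_of_pos hd0]
      exact max_lt (by linarith) he
    obtain ⟨v, hv⟩ := exists_W' D (by linarith) le_rfl (hsub h4)
    have := hmin1 _ hv
    simp only at this
    linarith
  · by_contra hc
    push Not at hc
    have := unique_W D hp₀.1 hp (hmin1 p hp) hc.le
    rw [this] at hc
    exact absurd hc (lt_irrefl _)

end

/-- **The stable set of the equilibrium in the case `α < A`.** -/
theorem result (α A B : ℝ) (hα : 0 < α) (hA : α < A) (hA1 : A < 1) (hB : 1 < B)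
    (H : α < (B - 1) * (1 - A) ^ 2 / 4) :
    (∀ p ∈ Quad, p ∈ W α A B ∨ ToLow α A B p ∨ ToHigh α A B p) ∧
    (xbar α A B, xbar α A B) ∈ W α A B ∧
    IsClosed (W α A B) ∧
    (∀ p ∈ W α A B, ∀ q ∈ W α A B, p.1 ≤ q.1 → q.2 ≤ p.2 → p = q) ∧
    (∀ p ∈ W α A B, ∀ u, p.1 ≤ u → ∃! v, ((u, v) : ℝ × ℝ) ∈ W α A B) ∧
    (∃ p₀ ∈ W α A B, (p₀.1 = 0 ∨ p₀.2 = 0) ∧ ∀ p ∈ W α A B, p₀.1 ≤ p.1 ∧ p₀.2 ≤ p.2) ∧
    (∀ p ∈ W α A B, ∀ q ∈ Quad, q ≠ p → p.1 ≤ q.1 → q.2 ≤ p.2 → ToLow α A B q) ∧
    (∀ p ∈ W α A B, ∀ q ∈ Quad, q ≠ p → q.1 ≤ p.1 → p.2 ≤ q.2 → ToHigh α A B q) := by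
  have D := data hα hA hA1 hB H
  have hxW : (xbar α A B, xbar α A B) ∈ W α A B := by
    rw [mem_W_iff]
    refine ⟨⟨D.hx.le, D.hx.le⟩, ?_⟩
    have hc : ∀ n, sol α A B (xbar α A B, xbar α A B) n = xbar α A B := by
      intro n
      induction n using Nat.strong_induction_on with
      | _ n ih =>
        match n with
        | 0 => simp only [sol]
        | 1 => simp only [sol]
        | n + 2 =>
          have h1 := isSol (α := α) (A := A) (B := B) (xbar α A B, xbar α A B) n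
          rw [h1, ih n (by omega), ih (n + 1) (by omega)]
          exact (const_sol D 0).symm
    exact tendsto_const_nhds.congr (fun n => (hc n).symm)
  refine ⟨fun p hp => trich D hp, hxW, closed_W D, fun p hp q hq h1 h2 => unique_W D hp hq h1 h2,
    ?_, left_end D hxW, fun p hp q hq hne h1 h2 => se_low D hp hq hne h1 h2,
    fun p hp q hq hne h1 h2 => nw_high D hp hq hne h1 h2⟩
  · intro p hp u hu
    obtain ⟨v, hv⟩ := exists_W D hp hu
    refine ⟨v, hv, fun v' hv' => ?_⟩
    rcases le_total v v' with h | h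
    · have := unique_W D hv' hv le_rfl h
      exact (congrArg Prod.snd this)
    · have := unique_W D hv hv' le_rfl h
      exact (congrArg Prod.snd this).symm

end Pool.Agent.Results.MP_a0c75d_an.StableCurve
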